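import Pool.Agent.H32.Semilat.Chains

/-!
# MP_97d10c_gt: a negative answer to Q1 and Q2

A Hausdorff topological semilattice all of whose maximal chains are `c`-complete and which is
not `H`-closed (hence not absolutely `H`-closed).
-/

namespace Pool.Agent.Results.MP_97d10c_gt.MaximalChains

open Set Topology

section defs

variable {X : Type} [Mul X]

/-- The natural order `x ≤ y ↔ x y = x`. -/
def NatLE (x y : X) : Prop := x * y = x

/-- Chains of a semilattice: `x y ∈ {x, y}` for all `x, y ∈ C`. -/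
def IsCh (C : Set X) : Prop := ∀ x ∈ C, ∀ y ∈ C, x * y = x ∨ x * y = y

/-- Inclusion-maximal chains. -/
def IsMaxCh (M : Set X) : Prop := IsCh M ∧ ∀ N : Set X, IsCh N → M ⊆ N → N = M

/-- `↓A`. -/
def downSet (A : Set X) : Set X := {x | ∃ a ∈ A, NatLE x a}

/-- `↑A`. -/
def upSet (A : Set X) : Set X := {x | ∃ a ∈ A, NatLE a x}

/-- `z` is the infimum of `C`. -/
def IsInf (C : Set X) (z : X) : Prop :=
  (∀ c ∈ C, NatLE z c) ∧ ∀ w, (∀ c ∈ C, NatLE w c) → NatLE w z

/-- `z` is the supremum of `C`. -/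
def IsSup (C : Set X) (z : X) : Prop :=
  (∀ c ∈ C, NatLE c z) ∧ ∀ w, (∀ c ∈ C, NatLE c w) → NatLE z w

end defs

/-- A maximal chain as a subsemigroup. -/
def chainSub {X : Type} [Mul X] (M : Set X) (hM : IsCh M) : Subsemigroup X where
  carrier := M
  mul_mem' := by
    intro a b ha hb
    rcases hM a ha b hb with h | h <;> rw [h] <;> assumption

/-- `c`-completeness. -/
def CComplete (X : Type) [Mul X] [TopologicalSpace X] : Prop :=
  ∀ F : Set X, IsClosed F → F = upSet F → ∀ C : Set X, C ⊆ F → C.Nonempty → IsCh C →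
    (∃ z, IsInf C z ∧ z ∈ F) ∧ ∃ z, IsSup C z ∧ z ∈ closure (downSet C)

/-- `H`-closedness: every topological isomorphic embedding into a Hausdorff topological
semigroup has closed image. -/
def HClosed (X : Type) [Mul X] [TopologicalSpace X] : Prop :=
  ∀ (Y : Type) [Semigroup Y] [TopologicalSpace Y] [T2Space Y] [ContinuousMul Y] (h : X →ₙ* Y),
    IsEmbedding h → IsClosed (range h)

/-- Absolute `H`-closedness: every continuous homomorphism into a Hausdorff topological
semigroup has closed image. -/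
def AbsHClosed (X : Type) [Mul X] [TopologicalSpace X] : Prop :=
  ∀ (Y : Type) [Semigroup Y] [TopologicalSpace Y] [T2Space Y] [ContinuousMul Y] (h : X →ₙ* Y),
    Continuous h → IsClosed (range h)

open Pool.Agent.H32.Semilat

/-- The complement of the identity in `Pt D`. -/
def XX (D : Data) : Subsemigroup (Pt D) where
  carrier := {p | p ≠ Pt.one D}
  mul_mem' := by
    intro a b ha _ hab
    apply ha
    have h1 : Pt.le (a * b) a := by
      rw [← Pt.mul_eq_iff, mul_comm a b, mul_assoc, Pt.mul_self]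
    rw [hab] at h1
    exact Pt.le_antisymm (Pt.le_one a) h1

section transfer

variable {D : Data}

lemma natLE_iff (p q : XX D) : NatLE p q ↔ Pt.le p.1 q.1 := by
  rw [← Pt.mul_eq_iff]
  unfold NatLE
  rw [Subtype.ext_iff]
  rfl

lemma isCh_iff (C : Set (XX D)) : IsCh C ↔ ∀ p ∈ C, ∀ q ∈ C, Pt.le p.1 q.1 ∨ Pt.le q.1 p.1 := by
  unfold IsCh
  constructor
  · intro h p hp q hq
    rcases h p hp q hq with h | h
    · left; exact (natLE_iff p q).mp h
    · right
      rw [mul_comm] at h
      exact (natLE_iff q p).mp h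
  · intro h p hp q hq
    rcases h p hp q hq with h | h
    · left; exact (natLE_iff p q).mpr h
    · right
      rw [mul_comm]
      exact (natLE_iff q p).mpr h

/-- Maximal chains of `XX D` give maximal chains of `Pt D` without the identity. -/
lemma maxCh_of {M : Set (XX D)} (hM : IsMaxCh M) : Pt.MaxCh (Subtype.val '' M) := by
  have hch := (isCh_iff M).mp hM.1
  refine ⟨?_, ?_, ?_⟩
  · rintro _ ⟨p, hp, rfl⟩ _ ⟨q, hq, rfl⟩
    exact hch p hp q hq
  · rintro ⟨p, _, hp⟩
    exact p.2 hp
  · intro z hz hcomp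
    have hN : IsCh (insert (⟨z, hz⟩ : XX D) M) := by
      rw [isCh_iff]
      intro p hp q hq
      rcases hp with rfl | hp
      · rcases hq with rfl | hq
        · left; exact Pt.le_refl _
        · exact (hcomp q.1 ⟨q, hq, rfl⟩).symm
      · rcases hq with rfl | hq
        · exact hcomp p.1 ⟨p, hp, rfl⟩
        · exact hch p hp q hq
    have heq := hM.2 _ hN (subset_insert _ _)
    refine ⟨⟨z, hz⟩, ?_, rfl⟩
    rw [← heq]
    exact mem_insert _ _

lemma cComplete_of_maxCh (M : Set (XX D)) (hM : IsMaxCh M) : CComplete (chainSub M hM.1) := by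
  have hMx := maxCh_of hM
  -- the inclusion of the chain into `Pt D`
  let e : chainSub M hM.1 → Pt D := fun m => m.1.1
  have he : IsInducing e := IsInducing.subtypeVal.comp IsInducing.subtypeVal
  have heM : ∀ m, e m ∈ Subtype.val '' M := fun m => ⟨m.1, m.2, rfl⟩
  have hsurj : ∀ z ∈ Subtype.val '' M, ∃ m, e m = z := by
    rintro _ ⟨p, hp, rfl⟩
    exact ⟨⟨p, hp⟩, rfl⟩
  have hle : ∀ p q : chainSub M hM.1, NatLE p q ↔ Pt.le (e p) (e q) := by
    intro p q
    rw [← natLE_iff]
    unfold NatLE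
    rw [Subtype.ext_iff]
    rfl
  intro F hF _ C hCF hne _
  have hCM : e '' C ⊆ Subtype.val '' M := by
    rintro _ ⟨c, _, rfl⟩
    exact heM c
  have hne' : (e '' C).Nonempty := hne.image e
  have hch : Pt.Ch (e '' C) := fun p hp q hq => hMx.ch p (hCM hp) q (hCM hq)
  constructor
  · obtain ⟨z, hz⟩ := hsurj _ (Pt.infPt_mem hMx hCM hne')
    refine ⟨z, ⟨fun c hc => ?_, fun w hw => ?_⟩, ?_⟩
    · rw [hle, hz]
      exact Pt.infPt_le ⟨c, hc, rfl⟩
    · rw [hle, hz]
      apply Pt.le_infPt
      rintro _ ⟨c, hc, rfl⟩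
      exact (hle w c).mp (hw c hc)
    · have h1 : z ∈ closure C := by
        rw [he.closure_eq_preimage_closure_image]
        show e z ∈ closure (e '' C)
        rw [hz]
        exact Pt.infPt_closure hne' hch
      exact hF.closure_subset_iff.mpr hCF h1
  · obtain ⟨z, hz⟩ := hsurj _ (Pt.supPt_mem hMx hCM)
    refine ⟨z, ⟨fun c hc => ?_, fun w hw => ?_⟩, ?_⟩
    · rw [hle, hz]
      exact Pt.le_supPt ⟨c, hc, rfl⟩
    · rw [hle, hz]
      apply Pt.supPt_le
      rintro _ ⟨c, hc, rfl⟩
      exact (hle c w).mp (hw c hc)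
    · rw [he.closure_eq_preimage_closure_image]
      show e z ∈ closure (e '' downSet C)
      rw [hz]
      refine closure_mono ?_ (Pt.supPt_closure hMx hCM hne')
      rintro p ⟨hp, _, ⟨c, hc, rfl⟩, hpc⟩
      obtain ⟨m, rfl⟩ := hsurj p hp
      exact ⟨m, ⟨c, hc, (hle m c).mpr hpc⟩, rfl⟩

end transfer

/-- There is a Hausdorff topological semilattice `X` in which every maximal chain is `c`-complete,
but `X` is not `H`-closed, and in particular not absolutely `H`-closed. -/
theorem result : ∃ (X : Type) (_ : CommSemigroup X) (_ : TopologicalSpace X),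
    (T2Space X ∧ ContinuousMul X ∧ ∀ x : X, x * x = x) ∧
    (∀ (M : Set X) (hM : IsMaxCh M), CComplete (chainSub M hM.1)) ∧
    ¬ HClosed X ∧ ¬ AbsHClosed X := by
  obtain ⟨D⟩ := exists_data
  let h : XX D →ₙ* Pt D := ⟨Subtype.val, fun _ _ => rfl⟩
  have hemb : IsEmbedding h := IsEmbedding.subtypeVal
  have hrange : range h = {p | p ≠ Pt.one D} := by
    ext p
    constructor
    · rintro ⟨q, rfl⟩
      exact q.2
    · intro hp
      exact ⟨⟨p, hp⟩, rfl⟩
  have hncl : ¬ IsClosed (range h) := by
    rw [hrange]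
    intro hcl
    have := Pt.one_mem_closure (D := D)
    rw [hcl.closure_eq] at this
    exact this rfl
  refine ⟨XX D, inferInstance, inferInstance, ⟨inferInstance, inferInstance, ?_⟩, ?_, ?_, ?_⟩
  · intro x
    exact Subtype.ext (Pt.mul_self x.1)
  · intro M hM
    exact cComplete_of_maxCh M hM
  · intro H
    exact hncl (H (Pt D) h hemb)
  · intro H
    exact hncl (H (Pt D) h hemb.continuous)

end Pool.Agent.Results.MP_97d10c_gt.MaximalChains
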